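import Mathlib

namespace Pool.Agent.MP_a0341c_al.H44

/-- The Cartan form of a `(k + 1)`-linear form `F`, an alternating `(2 k + 1)`-form. -/
noncomputable def cartanForm {L : Type} [LieRing L] [LieAlgebra ℂ L] {k : ℕ}
    (F : MultilinearMap ℂ (fun _ : Option (Fin k) => L) ℂ) (x : Option (Fin k × Bool) → L) : ℂ :=
  ∑ σ : Equiv.Perm (Option (Fin k × Bool)),
    (((Equiv.Perm.sign σ : ℤ) : ℂ) *
      F (fun j : Option (Fin k) => Option.elim j (x (σ none))
        (fun i => ⁅x (σ (some (i, false))), x (σ (some (i, true)))⁆)))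

end Pool.Agent.MP_a0341c_al.H44
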